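import Pool.Agent.R687.Clo.Space
import Pool.Agent.R687.Clo.Rat

/-!
MP_c74e51_al, Q1 (full answer, all three structures): the clone of all polymorphisms of the rational
Urysohn space does not have the Bergman property; the clones of all polymorphisms of the rational
Urysohn sphere and of `(ℚ, ≤)` have the Bergman property.

All definitions are in `Pool.Agent.R687.Clo.Defs`.
-/

namespace Pool.Agent.Results.MP_c74e51_al.BergmanClones

open Pool.Agent.R687.Clo

/-- The Bergman property fails for the rational Urysohn space and holds for the rational Urysohn
sphere and for `(ℚ, ≤)`. -/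
theorem result :
    (∀ (X : Type) [MetricSpace X], IsUrySpace X → ¬ Bergman (Pol (metRel X))) ∧
    (∀ (X : Type) [MetricSpace X], IsUrySphere X → Bergman (Pol (metRel X))) ∧
    Bergman (Pol ratRel) :=
  ⟨fun _ _ h => not_bergman_space h, fun _ _ h => bergman_sphere h, bergman_rat⟩

end Pool.Agent.Results.MP_c74e51_al.BergmanClones
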