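import Pool.Agent.R794.UQ.Berg

/-!
# The Bergman property of the polymorphism clones of three homogeneous structures

The definitions (operations, clones, `Generates`, the terms `lvl H k n` over `H` of arity `k + 1` and
depth at most `n`, the Bergman property, `Pol`, the rational Urysohn space and sphere as Fraisse
limits, the relations `d x y ≤ q`) are in `Pool/Agent/R794/UQ/Defs.lean`.

* `Pol 𝕌_ℚ` fails: `f ↦ d(x₀, f(x₀,…,x₀))` is subadditive, and the operations for which it is at
  most one generate.
* `Pol 𝕊_ℚ`: `X^(k+1)` is a nonexpansive retract of `X`, and all members of a sequence `g n` of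
  nonexpansive self-maps have the form `F ∘ τ^n ∘ w`.
* `Pol (ℚ, ≤)`: `f n (x) = F (x, -n, n)` where `F (x, t, s)` is the maximum of the `f n (x)` with
  `-t ≤ n ≤ s`, or the minimum of those with `s ≤ n ≤ -t`.
-/

set_option autoImplicit false

namespace Pool.Agent.Results.MP_c74e51_al.BergmanProperty

open Pool.Agent.R794.UQ

/-- 1. The polymorphism clone of the rational Urysohn space does not have the Bergman property:
it has a generating set `H` such that, for every arity and every depth, some polymorphism of this
arity is not a term over `H` of this depth.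

2. The polymorphism clone of the rational Urysohn sphere has the Bergman property.

3. The polymorphism clone of `(ℚ, ≤)` has the Bergman property. -/
theorem result :
    (∀ (X : Type) (d : X → X → ℚ), IsUrysohnSpace d →
      ¬ Bergman (Pol (metricRel d)) ∧
      ∃ H : Fam X, Generates H (Pol (metricRel d)) ∧
        ∀ k n, lvl H k n ≠ Pol (metricRel d) k) ∧
    (∀ (X : Type) (d : X → X → ℚ), IsUrysohnSphere d → Bergman (Pol (metricRel d))) ∧
    Bergman (Pol leRel) := by
  refine ⟨fun X d hX => ?_, fun X d hX => bergman_sphere hX, bergman_le⟩
  obtain ⟨H, hH, h⟩ := not_bergman_space hX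
  refine ⟨fun hB => ?_, H, hH, h⟩
  obtain ⟨n, hn⟩ := hB H hH 0
  exact h 0 n hn

end Pool.Agent.Results.MP_c74e51_al.BergmanProperty
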